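import Pool.Agent.Lib.MP_b09490_nt.No.Conc
import Pool.Agent.Lib.MP_b09490_nt.No.Cls
import Pool.Agent.Lib.MP_b09490_nt.No.Strict

set_option autoImplicit false

namespace Pool.Agent.Lib.MP_b09490_nt.Old.NormalOrder

/-- The class of `n`: the least `k ≥ 1` such that the `k`-th iterate of Euler's function sends `n`
to `1`. -/
noncomputable def cls (n : ℕ) : ℕ := sInf {k : ℕ | 1 ≤ k ∧ Nat.totient^[k] n = 1}

open Pool.Agent.Lib.MP_b09490_nt.No in
theorem kept : ∃ α : ℝ, 1 / Real.log 3 < α ∧ α < 1 / Real.log 2 ∧ Filter.Tendsto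
    (fun x : ℕ => (∑ n ∈ Finset.Icc 2 x, |(cls n : ℝ) / Real.log n - α|) / x)
    Filter.atTop (nhds 0) := by
  obtain ⟨t, h0, h1, hU, hL⟩ := conc
  have hm := mean_D h0 h1 hU hL
  exact ⟨t / Real.log 2, (strict_of_mean hm).1, (strict_of_mean hm).2,
    mean_ratio h0 h1 cls (fun n hn => class_bounds hn)
      (mean_class cls (fun n hn => class_bounds hn) hm)⟩

end Pool.Agent.Lib.MP_b09490_nt.Old.NormalOrder
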